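import Pool.Agent.H95.GY.Targets

/-!
# FIN. The answer to the question
-/

set_option autoImplicit false

open Filter Topology MeasureTheory Set
open scoped Pointwise

universe u v

namespace Pool.Agent.H91.GY

open Pool.Agent.H95.GY

theorem pf_FIN (hFAM : T_FAM.{u}) (hDIM : T_DIM.{u}) (hLCN : T_LCN.{u}) (hRET : T_RET.{u})
    (hSTO : T_STO.{u, v}) : T_FIN.{u, v} := by
  intro G _ _ _ _ _
  rw [reduction.{v, u} G]
  intro H hHo hHac
  have : LocallyCompactSpace H := hHo.isOpenEmbedding_subtypeVal.locallyCompactSpace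
  have hS : SmallGood H := hFAM H hHac
  intro K hK hL S _ _ _ _
  obtain ⟨hlc, n, hn⟩ := hL
  obtain ⟨N, hN, hN2⟩ := hDIM H hS K hK n hn
  obtain ⟨N', hN', hN'K⟩ := hLCN H hS K hK hlc N hN hN2
  exact hSTO H K hK (hRET H hS K hK N' hN' hN'K) S

end Pool.Agent.H91.GY
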