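import Pool.Agent.H95.GY.Targets

/-!
# HA. Approximate logarithm
-/

set_option autoImplicit false

open Filter Topology MeasureTheory Set
open scoped Pointwise

universe u v

namespace Pool.Agent.H91.GY

open Pool.Agent.H95.GY

private theorem ha_scale {Q : Type u} [Group Q] [TopologicalSpace Q] {φ : Q → ℝ} {X : ℝ → Q}
    {D : Q → ℝ} (h : HasD φ X D) {a : ℝ} (ha : 0 < a) :
    HasD φ (fun t => X (a * t)) (fun x => a * D x) := by
  obtain ⟨h1, c, hc, t₀, ht₀, h2⟩ := h
  refine ⟨h1.scale a, c * a ^ 2, by positivity, t₀ / a, by positivity, fun t x ht => ?_⟩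
  have h3 : |a * t| ≤ t₀ := by
    rw [abs_mul, abs_of_pos ha]
    calc a * |t| ≤ a * (t₀ / a) := mul_le_mul_of_nonneg_left ht ha.le
      _ = t₀ := by field_simp
  have h4 := h2 (a * t) x h3
  have e1 : φ (X (a * t) * x) - φ x - t * (a * D x) = φ (X (a * t) * x) - φ x - a * t * D x := by
    ring
  have e2 : c * a ^ 2 * t ^ 2 = c * (a * t) ^ 2 := by ring
  rw [e1, e2]
  exact h4

theorem pf_HA (hULM : T_ULM.{u}) : T_HA.{u} := by
  intro Q _ _ _ _ ν φ r C hGD
  have hC : 1 ≤ C := hGD.C_pos
  refine ⟨2 * C, by linarith, fun ε hε => ?_⟩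
  by_contra hcon
  push Not at hcon
  have h0 : ∀ i : ℕ, (0 : ℝ) < 1 / ((i : ℝ) + 2) := fun i => by positivity
  choose k hk hbad using fun i : ℕ => hcon (1 / ((i : ℝ) + 2)) (h0 i)
  -- the norms are positive
  have hpos : ∀ i, 0 < ν (k i) := by
    intro i
    rcases lt_or_eq_of_le (hGD.nonneg (k i)) with h | h
    · exact h
    · exfalso
      have h1 : HasD φ (fun _ : ℝ => (1 : Q)) (fun _ => 0) := by
        refine ⟨⟨continuous_const, fun s t => by simp⟩, 1, one_pos, 1, one_pos,
          fun t x _ => ?_⟩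
        simp only [one_mul, sub_self, mul_zero, abs_zero]
        positivity
      have h2 := hbad i (fun _ => 1) (fun _ => 0) h1 (fun x => by
        rw [abs_zero, ← h, mul_zero])
      rw [inv_one, mul_one, ← h, mul_zero] at h2
      exact lt_irrefl _ h2
  -- the numbers N
  let N : ℕ → ℕ := fun i => ⌊1 / ν (k i)⌋₊
  have hN1 : ∀ i, (N i : ℝ) ≤ 1 / ν (k i) := fun i => Nat.floor_le (by
    have := hpos i
    positivity)
  have hN2 : ∀ i, i + 2 ≤ N i := by
    intro i
    apply Nat.le_floor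
    rw [le_div_iff₀ (hpos i)]
    have h1 := hk i
    rw [le_div_iff₀ (by positivity)] at h1
    push_cast
    linarith
  have hNν : ∀ i, (N i : ℝ) * ν (k i) ≤ 1 := by
    intro i
    have h1 := hN1 i
    rwa [le_div_iff₀ (hpos i)] at h1
  have hNpos : ∀ i, (0 : ℝ) < N i := fun i => by
    have h1 := hN2 i
    have : 0 < N i := by omega
    exact_mod_cast this
  have hNinv : ∀ i, 1 / (N i : ℝ) ≤ 2 * ν (k i) := by
    intro i
    have h1 : 1 / ν (k i) < N i + 1 := Nat.lt_floor_add_one _
    rw [div_lt_iff₀ (hpos i)] at h1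
    rw [div_le_iff₀ (hNpos i)]
    have h2 : ν (k i) ≤ 1 / 2 := (hk i).trans (by
      apply one_div_le_one_div_of_le (by norm_num)
      have : (0 : ℝ) ≤ i := Nat.cast_nonneg i
      linarith)
    nlinarith
  let ω : Ultrafilter ℕ := hyperfilter ℕ
  have hω : Tendsto N ω atTop := by
    have h1 : Tendsto N atTop atTop := by
      refine tendsto_atTop_mono (f := fun i : ℕ => i) (fun i => ?_) tendsto_id
      have := hN2 i
      omega
    exact h1.mono_left Nat.hyperfilter_le_atTop
  obtain ⟨X, D, hXD, -, -, happ⟩ := hULM Q ν φ r C hGD ω k N 1 hω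
    (Eventually.of_forall hNν)
  -- the bound for D
  have hD : ∀ x, |D x| ≤ C := by
    intro x
    refine le_of_forall_pos_le_add fun δ hδ => ?_
    obtain ⟨i, hi⟩ := (happ δ hδ).exists
    have h1 := hi x
    have h2 := hGD.lip (k i) x
    have h3 : |(N i : ℝ) * (φ (k i * x) - φ x)| ≤ C := by
      rw [abs_mul, abs_of_pos (hNpos i)]
      calc (N i : ℝ) * |φ (k i * x) - φ x| ≤ N i * (C * ν (k i)) :=
            mul_le_mul_of_nonneg_left h2 (hNpos i).le
        _ = C * (N i * ν (k i)) := by ring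
        _ ≤ C * 1 := mul_le_mul_of_nonneg_left (hNν i) (by linarith)
        _ = C := mul_one C
    have h4 : D x = (N i : ℝ) * (φ (k i * x) - φ x) -
        ((N i : ℝ) * (φ (k i * x) - φ x) - D x) := by ring
    rw [h4]
    refine (abs_sub _ _).trans ?_
    linarith
  obtain ⟨hX, c, hc, t₀, ht₀, hder⟩ := id hXD
  -- choose the index
  have hεC : 0 < ε / (4 * C) := by positivity
  have hev1 := happ (ε / (4 * C)) hεC
  obtain ⟨M, hM⟩ := exists_nat_gt (max (1 / t₀) (c / (ε / (4 * C))))
  have hev2 : ∀ᶠ i in (ω : Filter ℕ), M ≤ N i := hω.eventually_ge_atTop M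
  obtain ⟨i, hi1, hi2⟩ := (hev1.and hev2).exists
  have hNM : (M : ℝ) ≤ N i := by exact_mod_cast hi2
  have hNt : 1 / (N i : ℝ) ≤ t₀ := by
    rw [div_le_iff₀ (hNpos i)]
    have h1 : 1 / t₀ < N i := lt_of_lt_of_le (lt_of_le_of_lt (le_max_left _ _) hM) hNM
    rw [div_lt_iff₀ ht₀] at h1
    linarith
  have hNc : c * (1 / (N i : ℝ)) ≤ ε / (4 * C) := by
    have h1 : c / (ε / (4 * C)) < N i := lt_of_lt_of_le (lt_of_le_of_lt (le_max_right _ _) hM) hNM
    rw [div_lt_iff₀ hεC] at h1
    rw [mul_one_div, div_le_iff₀ (hNpos i)]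
    linarith
  set a : ℝ := 1 / (N i : ℝ) with ha
  have hapos : 0 < a := by
    have := hNpos i
    positivity
  refine absurd (hbad i (fun t => X (a * t)) (fun x => a * D x) (ha_scale hXD hapos) ?_) ?_
  · intro x
    rw [abs_mul, abs_of_pos hapos]
    calc a * |D x| ≤ a * C := mul_le_mul_of_nonneg_left (hD x) hapos.le
      _ ≤ 2 * ν (k i) * C := mul_le_mul_of_nonneg_right (hNinv i) (by linarith)
      _ = 2 * C * ν (k i) := by ring
  · rw [not_lt]
    show ν (k i * (X (a * 1))⁻¹) ≤ ε * ν (k i)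
    rw [mul_one]
    obtain ⟨x, hx⟩ := hGD.low (k i * (X a)⁻¹)
    refine hx.trans ?_
    set z : Q := (X a)⁻¹ * x with hz
    have e1 : k i * (X a)⁻¹ * x = k i * z := by rw [hz, mul_assoc]
    have e2 : x = X a * z := by rw [hz, mul_inv_cancel_left]
    rw [e1]
    have h1 := hi1 z
    have h2 := hder a z (by rw [abs_of_pos hapos]; exact hNt)
    have h3 : |φ (k i * z) - φ z - a * D z| ≤ a * (ε / (4 * C)) := by
      have e3 : φ (k i * z) - φ z - a * D z =
          a * ((N i : ℝ) * (φ (k i * z) - φ z) - D z) := by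
        have : a * (N i : ℝ) = 1 := by
          rw [ha]
          exact one_div_mul_cancel (hNpos i).ne'
        linear_combination (-(φ (k i * z) - φ z)) * this
      rw [e3, abs_mul, abs_of_pos hapos]
      exact mul_le_mul_of_nonneg_left h1 hapos.le
    have h4 : |φ (k i * z) - φ x| ≤ a * (ε / (4 * C)) + c * a ^ 2 := by
      have e4 : φ (k i * z) - φ x = (φ (k i * z) - φ z - a * D z) -
          (φ (X a * z) - φ z - a * D z) := by
        rw [← e2]; ring
      rw [e4]
      refine (abs_sub _ _).trans ?_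
      linarith
    calc C * |φ (k i * z) - φ x| ≤ C * (a * (ε / (4 * C)) + c * a ^ 2) :=
          mul_le_mul_of_nonneg_left h4 (by linarith)
      _ = C * a * (ε / (4 * C) + c * a) := by ring
      _ ≤ C * a * (ε / (4 * C) + ε / (4 * C)) := by
          apply mul_le_mul_of_nonneg_left _ (by positivity)
          linarith
      _ = a * ε / 2 := by field_simp; ring
      _ ≤ 2 * ν (k i) * ε / 2 := by
          have := mul_le_mul_of_nonneg_right (hNinv i) hε.le
          linarith
      _ = ε * ν (k i) := by ring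

end Pool.Agent.H91.GY
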